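import Pool.Agent.H951.FH.Stm2

/-!
# Project FH, part 2: assembly, slopes in the cube (`S_FV`)
-/

set_option autoImplicit false

open MeasureTheory
open scoped Classical ENNReal NNReal

namespace Pool.Agent.H379.FH

open Pool.Agent.H951.FH

theorem t_FV : S_COV → S_SEL → S_FRO → S_ONE → S_NB → S_FV := by
  intro hCOV hSEL hFRO hONE hNB d K V B τ hd hτ hτ1 hV hV0 hT
  by_contra hcon
  rw [not_le] at hcon
  -- the exponent `s`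
  obtain ⟨y, hy1, hy2⟩ := exists_between hcon
  have hyt : y ≠ ⊤ := (hy2.trans ENNReal.ofReal_lt_top).ne
  set s : ℝ := y.toReal with hs
  have hys : ENNReal.ofReal s = y := ENNReal.ofReal_toReal hyt
  have hs0 : 0 ≤ s := ENNReal.toReal_nonneg
  have hs1 : dimH K < ENNReal.ofReal s := by rw [hys]; exact hy1
  have hs2 : s < 2 * τ + ((d : ℝ) - 1) / 2 := by
    rw [← hys] at hy2
    exact (ENNReal.ofReal_lt_ofReal_iff_of_nonneg hs0).1 hy2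
  obtain ⟨ρ, b, hρ0, hρ1, hb0, hb1, hnb⟩ := hNB d τ s hd hτ hτ1 hs0 hs2
  set T : (Fin d → ℝ) → Set ℝ := fun v => {t : ℝ | t ∈ Set.Ico (0 : ℝ) 1 ∧
    (Fin.cons t (fun i => B v i + t * v i) : Fin (d + 1) → ℝ) ∈ K} with hTdef
  have hTsub : ∀ v, T v ⊆ Set.Ico 0 1 := fun v t ht => ht.1
  obtain ⟨x, k1, hx, hsel⟩ := hSEL d V T τ b ρ hτ hb0 hb1 hρ0 hρ1 hV0
    (fun v hv => ⟨hTsub v, hT v hv⟩)
  obtain ⟨k1', hnb'⟩ := hnb x (1800000000 * 96 ^ d * 64 ^ (d + 1)) hx (by positivity)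
  obtain ⟨Q, hQ1, hQ2⟩ := hCOV (d + 1) K s (max k1 k1') hs0 hs1
  set U : (Fin d → ℝ) → ℕ → Set ℝ := fun v k => {t : ℝ | ∃ q ∈ Q k, ∀ i : Fin (d + 1),
    |(2 : ℝ) ^ k * (Fin.cons t (fun i => B v i + t * v i) : Fin (d + 1) → ℝ) i - q i| < 3} with hU
  obtain ⟨k, hk, hvol⟩ := hsel (max k1 k1') (le_max_left _ _) U (by
    intro v hv t ht
    obtain ⟨k, hk, q, hq, h3⟩ := hQ2 _ ht.2
    exact ⟨k, hk, q, hq, h3⟩)
  obtain ⟨r, hr1, hr2, hr3, hr4⟩ := hnb' k ((le_max_right _ _).trans hk)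
  set W : Set (Fin d → ℝ) := {v | v ∈ V ∧ ∀ C : Finset (ℕ × ℕ), Cv C (T v ∩ U v k) →
    b ^ k < Sm τ C} with hW
  set σ : ℝ := b ^ k * ((2 : ℝ) ^ k) ^ τ / 2 with hσ
  have h2k : (0 : ℝ) < ((2 : ℝ) ^ k) ^ τ := Real.rpow_pos_of_pos (by positivity) _
  have hσ0 : 0 < σ := by rw [hσ]; positivity
  -- the finite sets
  have hP : ∀ v, ∃ P : Finset ℝ, v ∈ W → (P : Set ℝ) ⊆ T v ∩ U v k ∧ σ ≤ P.card ∧
      ∀ l ≤ k, ∀ p : ℕ, ((P.filter fun t => (p : ℝ) / 2 ^ l ≤ t ∧ t < ((p : ℝ) + 1) / 2 ^ l).card :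
      ℝ) ≤ ((2 : ℝ) ^ (k - l)) ^ τ := by
    intro v
    by_cases hv : v ∈ W
    · obtain ⟨P, C, h1, h2, -, h4, h5⟩ := hFRO τ k (T v ∩ U v k) hτ hτ1
        (fun t ht => hTsub v ht.1)
      refine ⟨P, fun _ => ⟨h1, ?_, h2⟩⟩
      have h6 : b ^ k < Sm τ C := hv.2 C h4
      have h7 : b ^ k < 2 * (P.card : ℝ) / ((2 : ℝ) ^ k) ^ τ := lt_of_lt_of_le h6 h5
      rw [lt_div_iff₀ h2k] at h7
      rw [hσ]
      linarith
    · exact ⟨∅, fun h => absurd h hv⟩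
  choose P hP using hP
  have hone := hONE d k r W B P (Q k) (x * ρ ^ k) σ τ hd hτ hτ1 (by positivity) hσ0 hvol
    (fun v hv => hV v hv.1) (fun v hv => by
      obtain ⟨h1, h2, h3⟩ := hP v hv
      refine ⟨fun t ht => hTsub v (h1 ht).1, h2, h3, fun t ht => ?_⟩
      obtain ⟨q, hq, h4⟩ := (h1 ht).2
      refine ⟨q, hq, ?_, fun i => ?_⟩
      · have := h4 0
        rwa [Fin.cons_zero] at this
      · have := h4 i.succ
        rwa [Fin.cons_succ] at this) hr1 hr2 hr3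
  have hcard : ((Q k).card : ℝ) ^ 2 ≤ ((2 : ℝ) ^ (s * (k + 1))) ^ 2 :=
    pow_le_pow_left₀ (Nat.cast_nonneg _) (hQ1 k) 2
  have hfin : 1800000000 * 96 ^ d * 64 ^ (d + 1) * ((k : ℝ) + 1) ^ 11 * (2 : ℝ) ^ k *
      ((Q k).card : ℝ) ^ 2 ≤ 1800000000 * 96 ^ d * 64 ^ (d + 1) * ((k : ℝ) + 1) ^ 11 * (2 : ℝ) ^ k *
      ((2 : ℝ) ^ (s * (k + 1))) ^ 2 := mul_le_mul_of_nonneg_left hcard (by positivity)
  exact absurd (hone.trans hfin) (not_le.2 hr4)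

end Pool.Agent.H379.FH
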